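import Pool.Agent.Q6.TY.Stm3

set_option autoImplicit false
set_option maxHeartbeats 400000

/-! # Project TY: JOB CONJ (helper25) -/

namespace Pool.Agent.Q25.TY

open MvPolynomial Pool.Agent.Q6.TY

lemma prod_prim {t : ℕ} (p : Fin t → ℂ) (N : Fin t → ℕ) (I : Finset (Fin t)) :
    (∀ i ∈ I, (N i).Prime ∧ 2 < N i) → (∀ i ∈ I, ∀ j ∈ I, N i = N j → i = j) →
    (∀ i ∈ I, IsPrimitiveRoot (p i) (N i)) →
    IsPrimitiveRoot (∏ i ∈ I, p i) (∏ i ∈ I, N i) ∧
      Nat.totient (∏ i ∈ I, N i) = ∏ i ∈ I, (N i - 1) := by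
  classical
  refine Finset.induction_on I ?_ ?_
  · intro _ _ _; simp
  · intro a J ha ih hN hinj hp
    obtain ⟨h1, h2⟩ := ih (fun i hi => hN i (Finset.mem_insert_of_mem hi))
      (fun i hi j hj => hinj i (Finset.mem_insert_of_mem hi) j (Finset.mem_insert_of_mem hj))
      (fun i hi => hp i (Finset.mem_insert_of_mem hi))
    have hcop : Nat.Coprime (N a) (∏ i ∈ J, N i) := by
      refine Nat.Coprime.prod_right fun i hi => ?_
      refine (Nat.coprime_primes (hN a (Finset.mem_insert_self _ _)).1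
        (hN i (Finset.mem_insert_of_mem hi)).1).2 fun e => ha ?_
      rw [hinj a (Finset.mem_insert_self _ _) i (Finset.mem_insert_of_mem hi) e]
      exact hi
    rw [Finset.prod_insert ha, Finset.prod_insert ha, Finset.prod_insert ha]
    constructor
    · have e1 := (hp a (Finset.mem_insert_self _ _)).eq_orderOf
      have e2 := h1.eq_orderOf
      refine IsPrimitiveRoot.iff_orderOf.2 ?_
      rw [(Commute.all _ _).orderOf_mul_eq_mul_orderOf_of_coprime, ← e1, ← e2]
      rw [← e1, ← e2]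
      exact hcop
    · rw [Nat.totient_mul hcop, h2, Nat.totient_prime (hN a (Finset.mem_insert_self _ _)).1]

lemma exists_conj {t : ℕ} (p : Fin t → ℂ) (hp : ∀ i, IsAlgebraic ℚ (p i)) (ζ : ℂ) (n : ℕ)
    (hn : 0 < n) (hζ : IsPrimitiveRoot ζ n) (e : ℕ) (he : e.Coprime n) :
    ∃ q : Fin t → ℂ, mx q = mx p ∧ ∀ i, ∀ k : ℕ, p i = ζ ^ k → q i = (p i) ^ e := by
  have hmem : ∀ i, p i ∈ algebraicClosure ℚ ℂ := fun i => mem_algebraicClosure_iff.2 (hp i)
  have hζa : ζ ∈ algebraicClosure ℚ ℂ := mem_algebraicClosure_iff.2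
    (IsIntegral.tower_top (A := ℚ) (hζ.isIntegral hn)).isAlgebraic
  let ζE : algebraicClosure ℚ ℂ := ⟨ζ, hζa⟩
  have hζE : IsPrimitiveRoot ζE n := by
    refine IsPrimitiveRoot.of_map_of_injective (f := (algebraicClosure ℚ ℂ).val) ?_
      (algebraicClosure ℚ ℂ).val.injective
    exact hζ
  have hy : Polynomial.aeval (ζ ^ e) (minpoly ℚ ζE) = 0 := by
    rw [← Polynomial.cyclotomic_eq_minpoly_rat hζE hn,
      Polynomial.cyclotomic_eq_minpoly_rat (hζ.pow_of_coprime e he) hn]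
    exact minpoly.aeval _ _
  obtain ⟨φ, hφ⟩ := IntermediateField.exists_algHom_of_splits_of_aeval (F := ℚ)
    (E := algebraicClosure ℚ ℂ) (K := ℂ) (x := ζE) (y := ζ ^ e)
    (fun s => ⟨(algebraicClosure.isAlgebraic ℚ ℂ).isAlgebraic s |>.isIntegral,
      IsAlgClosed.splits _⟩) hy
  refine ⟨fun i => φ ⟨p i, hmem i⟩, ?_, ?_⟩
  · ext f
    have e1 : evh (fun i => φ ⟨p i, hmem i⟩) f =
        φ (aeval (fun i => (⟨p i, hmem i⟩ : algebraicClosure ℚ ℂ)) f) := by
      have := MvPolynomial.comp_aeval_apply (f := fun i => (⟨p i, hmem i⟩ : algebraicClosure ℚ ℂ))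
        ((φ : algebraicClosure ℚ ℂ →+* ℂ).toIntAlgHom) f
      exact this.symm
    have e2 : evh p f =
        ((aeval (fun i => (⟨p i, hmem i⟩ : algebraicClosure ℚ ℂ)) f : algebraicClosure ℚ ℂ) : ℂ) := by
      have := MvPolynomial.comp_aeval_apply (f := fun i => (⟨p i, hmem i⟩ : algebraicClosure ℚ ℂ))
        (((algebraicClosure ℚ ℂ).val : algebraicClosure ℚ ℂ →+* ℂ).toIntAlgHom) f
      exact this.symm
    simp only [mx, RingHom.mem_ker]
    rw [e1, e2]
    constructor
    · intro h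
      have := φ.injective (h.trans (map_zero φ).symm)
      rw [this]; rfl
    · intro h
      have : aeval (fun i => (⟨p i, hmem i⟩ : algebraicClosure ℚ ℂ)) f = 0 := Subtype.ext h
      rw [this, map_zero]
  · intro i k hk
    have : (⟨p i, hmem i⟩ : algebraicClosure ℚ ℂ) = ζE ^ k := Subtype.ext hk
    change φ ⟨p i, hmem i⟩ = _
    rw [this, map_pow, hφ, hk, ← pow_mul, ← pow_mul, mul_comm]

lemma im_ne_zero {z : ℂ} {N : ℕ} (hN : 2 < N) (hz : IsPrimitiveRoot z N) : z.im ≠ 0 := by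
  intro h
  have h1 : ‖z‖ = 1 := hz.norm'_eq_one (by omega)
  have h2 : z ^ 2 = 1 := by
    have h3 : z = (z.re : ℂ) := Complex.ext rfl (by simpa using h)
    have h4 : z.re ^ 2 = 1 := by
      have := Complex.sq_norm z
      rw [h1, Complex.normSq_apply, h] at this
      nlinarith
    rw [h3, ← Complex.ofReal_pow, h4, Complex.ofReal_one]
  exact absurd (Nat.le_of_dvd (by norm_num) (hz.dvd_of_pow_eq_one 2 h2)) (by omega)

theorem task_CONJ : S_CONJ := by
  classical
  intro t p hp I N i₀ hi₀ hN hinj hprim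
  obtain ⟨hζ, htot⟩ := prod_prim p N I hN hinj hprim
  set n := ∏ i ∈ I, N i with hn
  set ζ := ∏ i ∈ I, p i with hζdef
  have hnpos : 0 < n := Finset.prod_pos fun i hi => (hN i hi).1.pos
  have hdvd : ∀ i ∈ I, N i ∣ n := fun i hi => Finset.dvd_prod_of_mem N hi
  have hn3 : 3 ≤ n := le_trans (hN i₀ hi₀).2 (Nat.le_of_dvd hnpos (hdvd i₀ hi₀))
  have hpow : ∀ i ∈ I, ∃ k : ℕ, p i = ζ ^ k := by
    intro i hi
    obtain ⟨m, hm⟩ := hdvd i hi
    have h1 : p i ^ n = 1 := by rw [hm, pow_mul, (hprim i hi).pow_eq_one, one_pow]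
    haveI : NeZero n := ⟨hnpos.ne'⟩
    obtain ⟨k, _, hk⟩ := hζ.eq_pow_of_pow_eq_one h1
    exact ⟨k, hk.symm⟩
  have hex : ∀ e : ℕ, ∃ q : Fin t → ℂ, n.Coprime e → mx q = mx p ∧ ∀ i ∈ I, q i = (p i) ^ e := by
    intro e
    by_cases he : n.Coprime e
    · obtain ⟨q, hq1, hq2⟩ := exists_conj p hp ζ n hnpos hζ e he.symm
      refine ⟨q, fun _ => ⟨hq1, fun i hi => ?_⟩⟩
      obtain ⟨k, hk⟩ := hpow i hi
      exact hq2 i k hk
    · exact ⟨p, fun h => absurd h he⟩
  choose q hq using hex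
  let S := (Finset.range n).filter (fun e => n.Coprime e)
  have hS : S.card = ∏ i ∈ I, (N i - 1) := by rw [← htot]; rfl
  have hqprod : ∀ e, n.Coprime e → ∏ i ∈ I, q e i = ζ ^ e := by
    intro e he
    rw [Finset.prod_congr rfl (fun i hi => (hq e he).2 i hi), Finset.prod_pow]
  have hqinj : Set.InjOn q (S : Set ℕ) := by
    intro e he e' he' h
    have he1 := Finset.mem_filter.1 he
    have he2 := Finset.mem_filter.1 he'
    have h1 := hqprod e he1.2
    rw [h, hqprod e' he2.2] at h1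
    exact hζ.pow_inj (Finset.mem_range.1 he1.1) (Finset.mem_range.1 he2.1) h1.symm
  have him : ∀ e ∈ S, ((p i₀) ^ e).im ≠ 0 := by
    intro e he
    have he1 := Finset.mem_filter.1 he
    refine im_ne_zero (hN i₀ hi₀).2 ((hprim i₀ hi₀).pow_of_coprime e ?_)
    exact (Nat.Coprime.coprime_dvd_left (hdvd i₀ hi₀) he1.2).symm
  let Pos := S.filter (fun e => 0 < ((p i₀) ^ e).im)
  let Neg := S.filter (fun e => ¬ 0 < ((p i₀) ^ e).im)
  have hsum : Pos.card + Neg.card = S.card := Finset.card_filter_add_card_filter_not _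
  have hpn : (p i₀) ^ n = 1 := by
    obtain ⟨m, hm⟩ := hdvd i₀ hi₀
    rw [hm, pow_mul, (hprim i₀ hi₀).pow_eq_one, one_pow]
  have hnorm : ‖p i₀‖ = 1 := (hprim i₀ hi₀).norm'_eq_one (hN i₀ hi₀).1.ne_zero
  have hconj : ∀ e, e ≤ n → ((p i₀) ^ (n - e)).im = -((p i₀) ^ e).im := by
    intro e he
    have h1 : (p i₀) ^ (n - e) * (p i₀) ^ e = 1 := by rw [← pow_add, Nat.sub_add_cancel he, hpn]
    have h2 : (p i₀) ^ (n - e) = ((p i₀) ^ e)⁻¹ := eq_inv_of_mul_eq_one_left h1
    have h3 : ‖(p i₀) ^ e‖ = 1 := by rw [norm_pow, hnorm, one_pow]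
    rw [h2, Complex.inv_im, ← Complex.sq_norm, h3]
    ring
  have hmem : ∀ e ∈ S, 0 < e ∧ e < n ∧ (n - e) ∈ S := by
    intro e he
    have he1 := Finset.mem_filter.1 he
    have hlt := Finset.mem_range.1 he1.1
    have hpos : 0 < e := by
      rcases Nat.eq_zero_or_pos e with h | h
      · exfalso
        have := he1.2
        rw [h, Nat.coprime_zero_right] at this
        omega
      · exact h
    refine ⟨hpos, hlt, Finset.mem_filter.2 ⟨Finset.mem_range.2 (by omega), ?_⟩⟩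
    exact (Nat.coprime_self_sub_right hlt.le).2 he1.2
  have hcard : Pos.card = Neg.card := by
    refine Finset.card_nbij' (fun e => n - e) (fun e => n - e) ?_ ?_ ?_ ?_
    · intro e he
      have he1 := Finset.mem_filter.1 he
      obtain ⟨h1, h2, h3⟩ := hmem e he1.1
      refine Finset.mem_filter.2 ⟨h3, ?_⟩
      rw [hconj e h2.le]
      have := he1.2
      linarith
    · intro e he
      have he1 := Finset.mem_filter.1 he
      obtain ⟨h1, h2, h3⟩ := hmem e he1.1
      refine Finset.mem_filter.2 ⟨h3, ?_⟩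
      rw [hconj e h2.le]
      have h4 := him e he1.1
      have h5 := not_lt.1 he1.2
      have := lt_of_le_of_ne h5 h4
      linarith
    · intro e he
      have he1 := Finset.mem_filter.1 he
      obtain ⟨h1, h2, h3⟩ := hmem e he1.1
      simp only
      omega
    · intro e he
      have he1 := Finset.mem_filter.1 he
      obtain ⟨h1, h2, h3⟩ := hmem e he1.1
      simp only
      omega
  refine ⟨Pos.image q, ?_, ?_⟩
  · rw [Finset.card_image_of_injOn (hqinj.mono (by
      intro e he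
      exact (Finset.mem_filter.1 he).1)), ← hS]
    omega
  · intro x hx
    obtain ⟨e, he, rfl⟩ := Finset.mem_image.1 hx
    have he1 := Finset.mem_filter.1 he
    have he2 := Finset.mem_filter.1 he1.1
    refine ⟨(hq e he2.2).1, ?_⟩
    rw [(hq e he2.2).2 i₀ hi₀]
    exact he1.2

end Pool.Agent.Q25.TY
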