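import Pool.Agent.Q6.TY.Stm3

set_option autoImplicit false
set_option maxHeartbeats 400000

/-! # Project TY: JOB CUT (helper25) -/

namespace Pool.Agent.Q25.TY

open MvPolynomial Pool.Agent.Q6.TY

/-- the set of the statement -/
def W {t : ℕ} (F : Set (P t)) (I : Finset (Fin t)) (N : Fin t → ℕ) : Set (Fin t → ℂ) :=
  {q | q ∈ Zer F ∧ ∀ i ∈ I, IsPrimitiveRoot (q i) (N i)}

/-- the complex equations of `W` -/
def WG {t : ℕ} (F : Set (P t)) (I : Finset (Fin t)) (N : Fin t → ℕ) :
    Set (MvPolynomial (Fin t) ℂ) :=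
  {g | ∃ f ∈ F, g = map (Int.castRingHom ℂ) f} ∪
    {g | ∃ i ∈ I, g = Polynomial.aeval (X i) (Polynomial.cyclotomic (N i) ℂ)}

lemma mem_W {t : ℕ} (F : Set (P t)) (I : Finset (Fin t)) (N : Fin t → ℕ)
    (hN : ∀ i ∈ I, (N i).Prime) (q : Fin t → ℂ) :
    (∀ g ∈ WG F I N, eval q g = 0) ↔ q ∈ W F I N := by
  have e1 : ∀ f : P t, eval q (map (Int.castRingHom ℂ) f) = evh q f := by
    intro f
    rw [eval_map]
    simp only [evh, AlgHom.toRingHom_eq_coe, RingHom.coe_coe, aeval_def]
    rfl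
  have e2 : ∀ i (f : Polynomial ℂ), eval q (Polynomial.aeval (X i) f) = Polynomial.eval (q i) f := by
    intro i f
    have := Polynomial.map_aeval_eq_aeval_map (ψ := (eval q)) (φ := RingHom.id ℂ)
      (R := ℂ) (S := MvPolynomial (Fin t) ℂ) (T := ℂ) (U := ℂ) (by ext x; simp) f (X i)
    rw [this]
    simp
  have hne : ∀ i ∈ I, NeZero ((N i : ℕ) : ℂ) := fun i hi => ⟨Nat.cast_ne_zero.2 (hN i hi).ne_zero⟩
  constructor
  · intro h
    refine ⟨fun f hf => ?_, fun i hi => ?_⟩
    · rw [← e1]; exact h _ (Or.inl ⟨f, hf, rfl⟩)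
    · haveI := hne i hi
      refine (Polynomial.isRoot_cyclotomic_iff (n := N i) (R := ℂ) (μ := q i)).1 ?_
      have := h _ (Or.inr ⟨i, hi, rfl⟩)
      rw [e2] at this
      exact this
  · rintro ⟨h1, h2⟩ g (⟨f, hf, rfl⟩ | ⟨i, hi, rfl⟩)
    · rw [e1]; exact h1 f hf
    · rw [e2]
      haveI := hne i hi
      exact (Polynomial.isRoot_cyclotomic_iff (n := N i) (R := ℂ) (μ := q i)).2 (h2 i hi)

lemma exists_coord {t : ℕ} (S : Set (Fin t → ℂ)) (hS : S.Infinite) :
    ∃ i, {z : ℂ | ∃ q ∈ S, q i = z}.Infinite := by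
  by_contra hcon
  push Not at hcon
  refine hS ?_
  refine Set.Finite.subset (Set.Finite.pi' (t := fun i => {z : ℂ | ∃ q ∈ S, q i = z})
    fun i => hcon i) ?_
  intro q hq i
  exact ⟨q, hq, rfl⟩

lemma exists_prime (D : Set ℂ) (hD : D.Finite) (B : ℕ) :
    ∃ p : ℕ, p.Prime ∧ B < p ∧ ∃ z : ℂ, IsPrimitiveRoot z p ∧ z ∉ D := by
  by_contra hcon
  push Not at hcon
  have hinf : {p : ℕ | p.Prime ∧ B < p}.Infinite := by
    intro hf
    have h1 : {p : ℕ | p.Prime} ⊆ {p : ℕ | p.Prime ∧ B < p} ∪ {p | p ≤ B} := by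
      intro p hp
      rcases lt_or_ge B p with h | h
      · exact Or.inl ⟨hp, h⟩
      · exact Or.inr h
    exact Nat.infinite_setOfPred_prime ((hf.union (Set.finite_le_nat B)).subset h1)
  let g : ℕ → ℂ := fun n => Complex.exp (2 * Real.pi * Complex.I / n)
  have hg : ∀ p : ℕ, p.Prime → IsPrimitiveRoot (g p) p := fun p hp =>
    Complex.isPrimitiveRoot_exp p hp.ne_zero
  have hinj : Set.InjOn g {p : ℕ | p.Prime ∧ B < p} := by
    intro p hp q hq e
    have h1 := hg p hp.1
    have h2 := hg q hq.1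
    rw [e] at h1
    exact h1.unique h2
  refine (hinf.image hinj) (hD.subset ?_)
  rintro z ⟨p, hp, rfl⟩
  exact hcon p hp.1 hp.2 _ (hg p hp.1)

theorem task_CUT : S_COF → S_CUT := by
  intro hC t F hF K
  -- the induction
  have key : ∀ n : ℕ, ∀ (I : Finset (Fin t)) (N : Fin t → ℕ), t - I.card = n →
      (∀ i ∈ I, (N i).Prime ∧ K < N i) → (∀ i ∈ I, ∀ j ∈ I, N i = N j → i = j) →
      (W F I N).Nonempty → ∃ (I : Finset (Fin t)) (N : Fin t → ℕ),
        (∀ i ∈ I, (N i).Prime ∧ K < N i) ∧ (∀ i ∈ I, ∀ j ∈ I, N i = N j → i = j) ∧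
        (W F I N).Finite ∧ (W F I N).Nonempty := by
    intro n
    induction n using Nat.strong_induction_on with
    | _ n ih =>
    intro I N hn h1 h2 h3
    by_cases hfin : (W F I N).Finite
    · exact ⟨I, N, h1, h2, hfin, h3⟩
    obtain ⟨i, hi⟩ := exists_coord _ hfin
    have hiI : i ∉ I := by
      intro hiI
      refine hi ?_
      have hpos : 0 < N i := (h1 i hiI).1.pos
      refine Set.Finite.subset (Polynomial.nthRootsFinset (N i) (1 : ℂ)).finite_toSet ?_
      rintro z ⟨q, hq, rfl⟩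
      rw [Finset.mem_coe, Polynomial.mem_nthRootsFinset hpos]
      exact (hq.2 i hiI).pow_eq_one
    have hN : ∀ j ∈ I, (N j).Prime := fun j hj => (h1 j hj).1
    have hset : {z : ℂ | ∃ q : Fin t → ℂ, (∀ g ∈ WG F I N, eval q g = 0) ∧ q i = z} =
        {z : ℂ | ∃ q ∈ W F I N, q i = z} := by
      ext z
      constructor
      · rintro ⟨q, hq, e⟩; exact ⟨q, (mem_W F I N hN q).1 hq, e⟩
      · rintro ⟨q, hq, e⟩; exact ⟨q, (mem_W F I N hN q).2 hq, e⟩
    have hD := hC t (WG F I N) i (by rw [hset]; exact hi)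
    rw [hset] at hD
    obtain ⟨p, hp, hpB, z, hz, hzD⟩ := exists_prime _ hD (K + ∑ j ∈ I, N j)
    rw [Set.mem_compl_iff, not_not] at hzD
    obtain ⟨q, hq, hqz⟩ := hzD
    have hcard : (insert i I).card = I.card + 1 := Finset.card_insert_of_notMem hiI
    have hle : (insert i I).card ≤ t := by
      have := Finset.card_le_univ (insert i I)
      rwa [Fintype.card_fin] at this
    have hup : ∀ j ∈ I, Function.update N i p j = N j := by
      intro j hj
      have hji : j ≠ i := by
        intro e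
        rw [e] at hj
        exact hiI hj
      exact Function.update_of_ne hji _ _
    have hlt : ∀ j ∈ I, N j < p := by
      intro j hj
      have := Finset.single_le_sum (f := N) (fun j _ => Nat.zero_le _) hj
      omega
    refine ih (t - (insert i I).card) (by omega) (insert i I) (Function.update N i p) rfl ?_ ?_ ?_
    · intro j hj
      rcases Finset.mem_insert.1 hj with rfl | hj
      · rw [Function.update_self]; exact ⟨hp, by omega⟩
      · rw [hup j hj]; exact h1 j hj
    · intro j hj l hl e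
      rcases Finset.mem_insert.1 hj with hj1 | hj1
      · rcases Finset.mem_insert.1 hl with hl1 | hl1
        · rw [hj1, hl1]
        · rw [hj1, Function.update_self, hup l hl1] at e
          exact absurd e (hlt l hl1).ne'
      · rcases Finset.mem_insert.1 hl with hl1 | hl1
        · rw [hl1, Function.update_self, hup j hj1] at e
          exact absurd e (hlt j hj1).ne
        · rw [hup j hj1, hup l hl1] at e
          exact h2 j hj1 l hl1 e
    · refine ⟨q, hq.1, fun j hj => ?_⟩
      rcases Finset.mem_insert.1 hj with rfl | hj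
      · rw [Function.update_self, hqz]; exact hz
      · rw [hup j hj]; exact hq.2 j hj
  have h0 : W F ∅ (fun _ => 0) = Zer F := by
    ext q; simp [W]
  obtain ⟨I, N, h1, h2, h3, h4⟩ := key t ∅ (fun _ => 0) (by simp) (by simp) (by simp)
    (by rw [h0]; exact hF.nonempty)
  refine ⟨I, N, ?_, h1, h2, h3, h4⟩
  by_contra hne
  rw [Finset.not_nonempty_iff_eq_empty] at hne
  subst hne
  refine hF (h3.subset ?_)
  intro q hq
  exact ⟨hq, by simp⟩

end Pool.Agent.Q25.TY
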