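import Pool.Agent.Q6.TY.Stm3

set_option autoImplicit false
set_option maxHeartbeats 400000

/-! # Project TY: JOB EXV (helper25) -/

namespace Pool.Agent.Q25.TY

open MvPolynomial Pool.Agent.Q6.TY

theorem task_EXV : S_TORP → S_KRULL → S_ALG → S_EXV := by
  intro hT hKr hAl t F G hfin hF p hp hp0 V hV hG q
  induction q using (wellFounded_gt (α := Ideal (P t))).induction with
  | _ q ih =>
  intro hq htor hle
  have hmx : (mx p).IsPrime := RingHom.ker_isPrime _
  by_cases he : q = mx p
  · refine ⟨0, he ▸ Ch.refl, ?_⟩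
    rw [he, Ideal.map_quotient_self]
    have : ((⊥ : Ideal (P t ⧸ mx p))).height = 0 := by
      have : IsDomain (P t ⧸ mx p) := Ideal.Quotient.isDomain _
      exact Ideal.height_bot
    rw [this]
    simp
  · have hex : ∃ f ∈ F ∪ G, f ∉ q := by
      by_contra hcon
      push Not at hcon
      exact he ((hAl t (F ∪ G) hfin p hp).2 q hq hcon hle)
    obtain ⟨f, hfFG, hfq⟩ := hex
    have hfm : f ∈ mx p := hp f hfFG
    have hfF : f ∈ F := by
      rcases hfFG with h | h
      · exact h
      · exact absurd (htor (hG f h)) hfq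
    have hl : IsLin f := by
      rcases hF f hfF with ⟨w, hw⟩ | h
      · exfalso
        have hw' := hw
        obtain ⟨u, v, σ, _, _, _, e1, e2⟩ := hw
        have hmem : dif u v ∈ V := by
          rw [← e2]
          exact hV (Submodule.subset_span ⟨f, hfF, hw'⟩)
        have h6 := (hT t p hp0).2.2.2.2.2.1 V u v σ hmem (e1 ▸ hfm)
        rw [← e1] at h6
        exact hfq (htor h6)
      · exact h
    obtain ⟨p', h1, h2, h3, h4, h5⟩ := hKr (P t) q (mx p) hq hmx hle f hfm
    have hlt : q < p' := lt_of_le_of_ne h2 (fun e => hfq (e ▸ h3))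
    obtain ⟨s, hs1, hs2⟩ := ih p' hlt h1 (htor.trans h2) h4
    refine ⟨s + 1, Ch.step s q p' f hq h2 hfF hl hfq h3 hs1, ?_⟩
    refine h5.trans ?_
    push_cast
    exact add_le_add_left hs2 1

end Pool.Agent.Q25.TY
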