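import Pool.Agent.Q6.TY.Stm3

set_option autoImplicit false
set_option maxHeartbeats 400000

/-! # Project TY: JOBS RAT and TORS (helper25): torsion vectors form a subspace -/

namespace Pool.Agent.Q25.TY

open MvPolynomial Pool.Agent.Q6.TY

/-- the rational vectors with an integral multiple whose monomial is one on `S` -/
def tq {t : ℕ} (S : Set (Fin t → ℂ)) (hS : ∀ q ∈ S, ∀ j, q j ≠ 0) : Submodule ℚ (Fin t → ℚ) where
  carrier := {w | ∃ k : ℕ, 1 ≤ k ∧ ∃ z : Fin t → ℤ, (∀ j, (z j : ℚ) = k * w j) ∧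
    ∀ q ∈ S, ∏ j, q j ^ z j = 1}
  zero_mem' := ⟨1, le_rfl, 0, fun j => by simp, fun q _ => by simp⟩
  add_mem' := by
    rintro w w' ⟨k, hk, z, hz, h⟩ ⟨k', hk', z', hz', h'⟩
    refine ⟨k * k', Nat.mul_pos hk hk', fun j => k' * z j + k * z' j, fun j => ?_, fun q hq => ?_⟩
    · push_cast
      rw [hz, hz', Pi.add_apply]
      ring
    · have e : ∀ j, q j ^ ((k' : ℤ) * z j + k * z' j) = (q j ^ z j) ^ k' * (q j ^ z' j) ^ k := by
        intro j
        rw [zpow_add₀ (hS q hq j), mul_comm (k' : ℤ), mul_comm (k : ℤ), zpow_mul, zpow_mul,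
          zpow_natCast, zpow_natCast]
      rw [Finset.prod_congr rfl (fun j _ => e j), Finset.prod_mul_distrib, Finset.prod_pow,
        Finset.prod_pow, h q hq, h' q hq, one_pow, one_pow, one_mul]
  smul_mem' := by
    rintro c w ⟨k, hk, z, hz, h⟩
    refine ⟨k * c.den, Nat.mul_pos hk c.den_pos, fun j => c.num * z j, fun j => ?_, fun q hq => ?_⟩
    · push_cast
      rw [hz, Pi.smul_apply, smul_eq_mul]
      have hc : (c.num : ℚ) = c * c.den := (Rat.mul_den_eq_num c).symm
      rw [hc]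
      ring
    · have e : ∀ j, q j ^ (c.num * z j) = (q j ^ z j) ^ c.num := by
        intro j
        rw [mul_comm, zpow_mul]
      rw [Finset.prod_congr rfl (fun j _ => e j), Finset.prod_zpow, h q hq, one_zpow]

/-- the integral exponent vector of an index -/
def exz {t : ℕ} : O t → (Fin t → ℤ) := fun o => o.elim 0 (fun i => Pi.single i 1)

lemma exz_cast {t : ℕ} (o : O t) (j : Fin t) : ((exz o j : ℤ) : ℚ) = ex o j := by
  rcases o with _ | i
  · simp [exz, ex]
  · simp only [exz, ex, Option.elim_some]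
    by_cases h : j = i
    · subst h; simp
    · simp [Pi.single_eq_of_ne h]

lemma prod_single {t : ℕ} (q : Fin t → ℂ) (i : Fin t) (m : ℤ) :
    ∏ j, q j ^ ((Pi.single i m : Fin t → ℤ) j) = q i ^ m := by
  rw [Finset.prod_eq_single i]
  · simp
  · intro j _ hj
    simp [Pi.single_eq_of_ne hj]
  · simp

lemma prod_exz {t : ℕ} (q : Fin t → ℂ) (o : O t) : ∏ j, q j ^ (exz o j) = vl q o := by
  rcases o with _ | i
  · simp [exz, vl]
  · simp only [exz, vl, Option.elim_some]
    rw [prod_single, zpow_one]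

theorem task_TORS : S_TORS := by
  intro t M E i hi
  have hS : ∀ q ∈ {q | q ∈ Sol ℂ M E ∧ ∀ j, q j ≠ 0}, ∀ j, q j ≠ 0 := fun q hq => hq.2
  have hle : VM M ≤ tq {q | q ∈ Sol ℂ M E ∧ ∀ j, q j ≠ 0} hS := by
    refine Submodule.span_le.2 ?_
    rintro w ⟨x, hx, rfl⟩
    refine ⟨1, le_rfl, exz x.1 + exz x.2.1 - exz x.2.2, fun j => ?_, fun q hq => ?_⟩
    · simp [exz_cast]
    · have e : ∀ j, q j ^ ((exz x.1 + exz x.2.1 - exz x.2.2) j) =
          q j ^ exz x.1 j * q j ^ exz x.2.1 j * (q j ^ exz x.2.2 j)⁻¹ := by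
        intro j
        rw [Pi.sub_apply, Pi.add_apply, zpow_sub₀ (hq.2 j), zpow_add₀ (hq.2 j), div_eq_mul_inv]
      rw [Finset.prod_congr rfl (fun j _ => e j), Finset.prod_mul_distrib, Finset.prod_mul_distrib,
        Finset.prod_inv_distrib, prod_exz, prod_exz, prod_exz, hq.1.1 x hx]
      refine mul_inv_cancel₀ ?_
      rcases x.2.2 with _ | l
      · simp [vl]
      · exact hq.2 l
  obtain ⟨k, hk, z, hz, h⟩ := hle hi
  refine ⟨k, hk, fun q hq hq0 => ?_⟩
  have h1 := h q ⟨hq, hq0⟩
  have h2 : z = Pi.single i (k : ℤ) := by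
    funext j
    have := hz j
    simp only [ex, Option.elim_some] at this
    by_cases hj : j = i
    · subst hj
      rw [Pi.single_eq_same, mul_one] at this
      rw [Pi.single_eq_same]
      exact_mod_cast this
    · rw [Pi.single_eq_of_ne hj, mul_zero] at this
      rw [Pi.single_eq_of_ne hj]
      exact_mod_cast this
  rw [h2, prod_single, zpow_natCast] at h1
  exact h1

theorem task_RAT : S_RAT := by
  intro t p F I hp hF hI u v huv
  have hS : ∀ q ∈ ({p} : Set (Fin t → ℂ)), ∀ j, q j ≠ 0 := by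
    intro q hq; rw [Set.mem_singleton_iff.1 hq]; exact hp
  have hle : VI F I ≤ tq {p} hS := by
    refine sup_le (Submodule.span_le.2 ?_) (Submodule.span_le.2 ?_)
    · rintro w ⟨f, hf, a, b, σ, hσ, _, _, e, rfl⟩
      refine ⟨2, by norm_num, fun j => 2 * ((a j : ℤ) - b j), fun j => ?_, fun q hq => ?_⟩
      · simp only [dif]; push_cast; ring
      · rw [Set.mem_singleton_iff.1 hq]
        have h1 : evh p f = 0 := hF f hf
        have h2 : (∏ j, p j ^ a j) = (σ : ℂ) * ∏ j, p j ^ b j := by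
          rw [e] at h1
          simp only [evh, AlgHom.toRingHom_eq_coe, map_sub, RingHom.coe_coe, aeval_monomial,
            map_one, one_mul, sub_eq_zero] at h1
          rw [Finsupp.prod_fintype _ _ (fun i => pow_zero _),
            Finsupp.prod_fintype _ _ (fun i => pow_zero _)] at h1
          simpa using h1
        have h3 : (∏ j, p j ^ a j) ^ 2 = (∏ j, p j ^ b j) ^ 2 := by
          rw [h2, mul_pow]
          rcases hσ with rfl | rfl <;> simp
        have e2 : ∀ j, p j ^ (2 * ((a j : ℤ) - b j)) = (p j ^ a j) ^ 2 * ((p j ^ b j) ^ 2)⁻¹ := by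
          intro j
          rw [mul_comm, zpow_mul, zpow_sub₀ (hp j), zpow_natCast, zpow_natCast]
          norm_cast
          rw [div_pow, div_eq_mul_inv]
        rw [Finset.prod_congr rfl (fun j _ => e2 j), Finset.prod_mul_distrib,
          Finset.prod_inv_distrib, Finset.prod_pow, Finset.prod_pow, h3]
        refine mul_inv_cancel₀ (pow_ne_zero _ (Finset.prod_ne_zero_iff.2 fun j _ => ?_))
        exact pow_ne_zero _ (hp j)
    · rintro w ⟨i, hi, rfl⟩
      obtain ⟨k, hk, h⟩ := hI i hi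
      refine ⟨k, hk, Pi.single i (k : ℤ), fun j => ?_, fun q hq => ?_⟩
      · by_cases hj : j = i
        · subst hj; simp
        · simp [Pi.single_eq_of_ne hj]
      · rw [Set.mem_singleton_iff.1 hq, prod_single, zpow_natCast, h]
  obtain ⟨k, hk, z, hz, h⟩ := hle huv
  refine ⟨k, hk, ?_⟩
  have h1 := h p rfl
  have hz' : ∀ j, z j = (u j : ℤ) * k - v j * k := by
    intro j
    have := hz j
    simp only [dif] at this
    have h2 : (z j : ℚ) = ((u j : ℤ) * k - v j * k : ℤ) := by
      rw [this]; push_cast; ring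
    exact_mod_cast h2
  have e : ∀ j, p j ^ z j = (p j ^ u j) ^ k * ((p j ^ v j) ^ k)⁻¹ := by
    intro j
    rw [hz', zpow_sub₀ (hp j), zpow_mul, zpow_mul, div_eq_mul_inv, zpow_natCast, zpow_natCast,
      zpow_natCast, zpow_natCast]
  rw [Finset.prod_congr rfl (fun j _ => e j), Finset.prod_mul_distrib, Finset.prod_inv_distrib,
    Finset.prod_pow, Finset.prod_pow] at h1
  exact (mul_inv_eq_one₀ (pow_ne_zero _ (Finset.prod_ne_zero_iff.2
    fun j _ => pow_ne_zero _ (hp j)))).1 h1

end Pool.Agent.Q25.TY
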